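import Mathlib

/-! The Gaussian half-factor is not a Polya frequency function of order twelve. -/

open Filter Topology Real Finset Matrix

namespace Pool.Agent.H.MP_41e59c_pr

lemma mvt (h : ℝ) (n : ℕ) : ∀ (D : ℕ → ℝ → ℝ), (∀ k x, HasDerivAt (D k) (D (k + 1) x) x) → ∀ x,
    ∃ ξ, |ξ - x| ≤ n * |h| ∧ (fwdDiff h)^[n] (D 0) x = h ^ n * D n ξ := by
  induction n with
  | zero => exact fun D _ x => ⟨x, by simp, by simp⟩
  | succ n ih =>
    intro D hD x
    obtain ⟨ξ, l, e⟩ := ih (fun k => fwdDiff h (D k))
      (fun k x => ((hD k (x + h)).comp_add_const x h).sub (hD k x)) x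
    have d : ∀ t, HasDerivAt (fun t => D n (ξ + t * h)) (D (n + 1) (ξ + t * h) * h) t := fun t =>
      (hD n _).comp t (by simpa using ((hasDerivAt_id t).mul_const h).const_add ξ)
    obtain ⟨t, ⟨t0, t1⟩, m⟩ := exists_hasDerivAt_eq_slope _ _ one_pos
      (fun t _ => (d t).continuousAt.continuousWithinAt) fun t _ => d t
    refine ⟨ξ + t * h, ?_, ?_⟩
    · have := abs_add_le (ξ - x) (t * h)
      rw [abs_mul, abs_of_pos t0] at this
      push_cast
      rw [add_sub_right_comm]
      nlinarith [abs_nonneg h]
    · simp only [one_mul, zero_mul, add_zero, sub_zero, div_one] at m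
      rw [Function.iterate_succ_apply, e, fwdDiff, ← m]
      ring

lemma dif (h : ℝ) (j : ℕ) {f f' : ℝ → ℝ} (hf : ∀ x, HasDerivAt f (f' x) x) :
    ∀ x, HasDerivAt ((fwdDiff h)^[j] f) ((fwdDiff h)^[j] f' x) x := by
  induction j with
  | zero => exact hf
  | succ j ih =>
    intro x
    simp only [Function.iterate_succ_apply']
    exact ((ih (x + h)).comp_add_const x h).sub (ih x)

lemma ex {n : ℕ} (f : ℝ → ℝ) (h x : ℝ) (i : Fin n) : (fwdDiff h)^[i] f x =
    ∑ a : Fin n, (-1) ^ (i - a : ℕ) * (i : ℕ).choose a * f (x + a * h) := by
  rw [fwdDiff_iter_eq_sum_shift,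
    Fin.sum_univ_eq_sum_range (fun a => (-1) ^ (i - a : ℕ) * (i : ℕ).choose a * f (x + a * h))]
  simp only [zsmul_eq_mul, nsmul_eq_mul]
  push_cast
  exact sum_subset (range_subset_range.2 i.2) fun a _ l => by
    simp [Nat.choose_eq_zero_of_lt (by simpa using l : (i : ℕ) < a)]

lemma dpos {n : ℕ} {u v : Fin n → ℝ} (hu : ∀ i, 0 < u i) (hv : ∀ i, 0 < v i) :
    0 < (of fun i a : Fin n => u i * ((-1) ^ (i - a : ℕ) * (i : ℕ).choose a * v a)).det := by
  rw [det_of_isLowerTriangular _ fun i a l => by
    simp [Nat.choose_eq_zero_of_lt (show (i : ℕ) < a from l)]]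
  exact prod_pos fun i _ => by simpa using mul_pos (hu i) (hv i)

lemma wr {n : ℕ} {g : ℝ → ℝ} {c z : ℝ} {D : ℕ → ℝ → ℝ} (hD : ∀ k x, HasDerivAt (D k) (D (k + 1) x) x)
    (h0 : ∀ x, D 0 x = g x * exp (-c * x))
    (hg : ∀ h > 0, 0 ≤ (of fun a b : Fin n => g (z + a * h - b * h)).det) :
    0 ≤ (of fun i j : Fin n => (-1) ^ (j : ℕ) * D (i + j) z).det := by
  have k : ∀ h > 0, ∃ ξ : Fin n → Fin n → ℝ, (∀ i j, |ξ i j - z| ≤ (i + j) * h) ∧
      0 ≤ (of fun i j : Fin n => (-1) ^ (j : ℕ) * D (i + j) (ξ i j)).det := fun h p => by
    have a : ∀ i j : Fin n, ∃ ξ, |ξ - z| ≤ (i + j) * h ∧ (fwdDiff h)^[i] ((fwdDiff (-h))^[j] (D 0)) z =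
        h ^ (i : ℕ) * ((-h) ^ (j : ℕ) * D (i + j) ξ) := fun i j => by
      obtain ⟨ξ, l, e⟩ := mvt h i (fun k => (fwdDiff (-h))^[j] (D k)) (fun k => dif _ _ (hD k)) z
      obtain ⟨η, l', e'⟩ := mvt (-h) j (fun k => D (i + k)) (fun k => hD _) ξ
      refine ⟨η, ?_, by rw [e, ← e']; rfl⟩
      rw [abs_neg] at l'
      rw [abs_of_pos p] at l l'
      linarith [abs_sub_le η ξ z]
    choose ξ l e using a
    refine ⟨ξ, l, ?_⟩
    have p1 := dpos (n := n) (u := fun i => (h ^ (i : ℕ))⁻¹) (v := fun a => exp (-c * (z + a * h)))
      (fun _ => by positivity) fun _ => exp_pos _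
    have p2 := dpos (n := n) (u := fun i => (h ^ (i : ℕ))⁻¹) (v := fun a => exp (c * (a * h)))
      (fun _ => by positivity) fun _ => exp_pos _
    rw [← det_transpose] at p2
    have := mul_nonneg (mul_nonneg p1.le (hg h p)) p2.le
    rw [← det_mul, ← det_mul] at this
    refine this.trans_eq (congrArg _ (Matrix.ext fun i j => ?_))
    have q := e i j
    simp only [ex, h0] at q
    have r : (-1) ^ (j : ℕ) * D (i + j) (ξ i j) =
        (h ^ (i : ℕ))⁻¹ * (h ^ (j : ℕ))⁻¹ * (h ^ (i : ℕ) * ((-h) ^ (j : ℕ) * D (i + j) (ξ i j))) := by
      rw [neg_pow h]; field_simp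
    simp only [Matrix.mul_apply, of_apply, transpose_apply, r, ← q, mul_sum, sum_mul]
    rw [sum_comm]
    refine sum_congr rfl fun a _ => sum_congr rfl fun b _ => ?_
    rw [show -c * (z + a * h + b * -h) = -c * (z + a * h) + c * (b * h) by ring, exp_add,
      show z + a * h + b * -h = z + a * h - b * h by ring]
    ring
  choose ξ l e using fun m : ℕ => k (1 / (m + 1)) (by positivity)
  refine ge_of_tendsto' (x := atTop) ((continuous_id.matrix_det.tendsto _).comp
    (f := fun m => of fun i j : Fin n => (-1) ^ (j : ℕ) * D (i + j) (ξ m i j))
    (tendsto_pi_nhds.2 fun i => tendsto_pi_nhds.2 fun j => ?_)) e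
  refine ((hD _ z).continuousAt.tendsto.comp (tendsto_iff_norm_sub_tendsto_zero.2 ?_)).const_mul _
  refine squeeze_zero (fun _ => norm_nonneg _) (fun m => l m i j) ?_
  simpa using tendsto_one_div_add_atTop_nhds_zero_nat.const_mul (i + j : ℝ)

def SL : List ℤ :=
  [10, 30, -210, -330, 40110, -466170, -10155810, 489426870, -2345626290, -467784329370, 16090140502590,
   278793445586070, -40963229888676690, 823347478167215430, 79433459939363064990, -5876635608598205102730,
   -24603689214664439151090, 25022203383347655604648230, -1133179744042256939192228610,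
   -68225979218223665169073519530, 10202772215833057309854405510510, -164703788636134134351320942750970]

def FL : List ℤ :=
  [1, 0, -130, -390, 53430, 511290, -37278930, -734970990, 36338568630, 1248633106890, -44765843564130,
   -2497389003634590, 65282316448321830, 5796839555984486490, -107000489748433377330,
   -15385616243515629002190, 187404499507466802123030, 46043157699189029592810090,
   -329395323386195736245638530, -153197296518459719575451633790, 517799796418522710886190692230,
   558115299068093301848677782237690, -403082576634856708902516607067730]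

def LL : List (List ℤ) :=
  [[1],
   [0, 1],
   [10, -3, 13],
   [-1440, 12612, -3003, 4901],
   [66921420, -62338206, 165223461, -31436366, 29182751],
   [-4470338288640, 26615443810212, -14333746474710, 19905886581815, -3054874387890, 1955497211473],
   [1366037839341091327800, -2048525400620066851200, 4875284571644811441468, -1834300358452412410625,
    1687008355994094191045, -210186073248627451755, 104610492430715084307],
   [-3997456518772897878441089808000, 22278324410926490931138182252640, -17178280490107638522031595019732,
    24430886014744514057689297194262, -6850606107859080285177135100255, 4790750407819608135516848151085,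
    -484583697555894911084042182913, 205226687183753367490697969513],
   [5468923110700151705166974001979851372078000, -10050694191276345967784327175885083846592480,
    25352459778515523412724948498594255210247084, -12698678147014928201489532213801425644425196,
    13086801940546109401759890691534234652850027, -2802566215575021321960435538823807500243000,
    1650623022744553058077057136995550112020406, -134129089324155293720561537806630808072924,
    52379367398554468153323608403649848272083],
   [-82129825162226216639843469656906995574837921479593984000,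
    510884596195842664936608318255984146967115530635493893040,
    -446704259371705164390127750780138361053109964961260640512,
    741008444525815648978877281411365934081716939484428595932,
    -259083522745212409597086882083065748784703788140564976132,
    221137176204588866241197882804382712806848896938444009027,
    -36055313205587365738787549669772023669251161803241395488,
    19660953118512605743459662928981940317719317236400606718,
    -1248585011792667433319414617244475896206547670986978268,
    489635388698487808136930437339469431902509958966147683],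
   [212043635856969755100260053877862561514138881146365577603034887554116000,
    -382615425682265822561153968182241045682235400824993540381004130938782960,
    1219123889312241174430268976884846988373167708941727779476751443937827128,
    -635330050480805256444297194095173115202755711269192398585429574952414980,
    854196492400693909012997820650064133659717304948012636415660791462703970,
    -209648666114723172109727664716551491236001042427267760253737562547678335,
    168444056548944107754585247437537362450047963957921661510285222177766849,
    -20191604305557925567734696795739321251761616782114480921348419229923270,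
    11386530930272099522291139348346556738352579707805466231442871172965480,
    -534796286053713244778905668894160326499400382045849049412579072230455,
    234475971968083519098209663368899685907421590916682567577584537946573],
   [-13651070074975985384466281630771942091260245091476252616117140223879564068094161045440000,
    126307591518934475100314241092995766542194972137136143631053244403818271157301340005710400,
    -96807056168223142512869042189773713759151663931132735896223342138939140319304499490015760,
    239217416843858321281115361418723280939789756958305893322053714598616473533226480651104032,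
    -78265057573110487563885325402624206504931965002274343405010653452995693508217466670008100,
    102211053203029013649685775099653012211479028687955542056648393346429311367488283016433260,
    -17186887994255436732694647426401522126685836665346630097404861994287182221339918980693305,
    14967535777117925891499066414516525551231907963437064781990570256319617268317113355570211,
    -1258763295805681263003912645331330609446217712959704131608092082491418365150529639335650,
    832553331101614084787646587088776218663003527032469646101972210705890652787551237350390,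
    -27300399484898521499660465855327942666610495420129775479356411715926556405293783413185,
    15022381487268198130031161265492589136197920271607692161230142500625329140460057541707]]

def sq (n : ℕ) : ℚ := SL.getD n 0 / 13 ^ (n + 1)
def fq (n : ℕ) : ℚ := FL.getD n 0 / 13 ^ n
def lq : ℕ → ℚ
  | 0 => 0
  | n + 1 => -sq n

lemma sq_rec : ∀ n < 21, sq (n + 1) = sq n - ∑ k ∈ range (n + 1), n.choose k * sq k * sq (n - k) := by
  decide +kernel

lemma fq_rec : ∀ n < 22, fq (n + 1) = ∑ k ∈ range (n + 1), n.choose k * lq k * fq (n - k) := by
  decide +kernel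

def Mq : Matrix (Fin 12) (Fin 12) ℚ := of fun i j => (-1) ^ (j : ℕ) * fq (i + j)
def Lq : Matrix (Fin 12) (Fin 12) ℚ := of fun i j => (LL.getD i []).getD j 0

lemma c1 : ∀ i j : Fin 12, i < j → Lq i j = 0 := by decide +kernel
lemma c2 : 0 < ∏ i, Lq i i := by decide +kernel
lemma c3 : ∀ i j : Fin 12, j < i → ∑ k, Lq i k * Mq k j = 0 := by decide +kernel
lemma c4 : ∏ i, ∑ k, Lq i k * Mq k i < 0 := by decide +kernel

lemma gen {A B : Matrix (Fin 12) (Fin 12) ℚ} (c1 : ∀ i j : Fin 12, i < j → A i j = 0) (c2 : 0 < ∏ i, A i i)
    (c3 : ∀ i j : Fin 12, j < i → ∑ k, A i k * B k j = 0) (c4 : ∏ i, ∑ k, A i k * B k i < 0) :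
    B.det < 0 := by
  rw [← det_of_isLowerTriangular _ fun i j l => c1 i j l] at c2
  have b : (A * B).det < 0 := by
    rw [det_of_isUpperTriangular (M := A * B) fun i j l => c3 i j l]
    exact c4
  rw [det_mul] at b
  exact neg_of_mul_neg_right b c2.le

lemma Mq_neg : Mq.det < 0 := gen c1 c2 c3 c4

noncomputable def g (z : ℝ) : ℝ :=
  (2 / π) ^ (1 / 4 : ℝ) * exp (π ^ 2 / 12 + z - ∫ t in (0 : ℝ)..exp z, log (1 + t) / t)

noncomputable def σ (z : ℝ) : ℝ := exp z / (1 + exp z)
noncomputable def L (z : ℝ) : ℝ := log (13 / 3) - log (1 + exp z)
noncomputable def F (z : ℝ) : ℝ := g z * exp (-(1 - log (13 / 3)) * z)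

lemma pos (z : ℝ) : 1 + exp z ≠ 0 := by positivity

lemma dσ : deriv σ = σ - σ * σ := funext fun z => by
  refine ((hasDerivAt_exp z).fun_div ((hasDerivAt_exp z).const_add 1) (pos z)).deriv.trans ?_
  have := pos z
  simp only [Pi.sub_apply, Pi.mul_apply, σ]
  field_simp

lemma dL : deriv L = -σ := funext fun z =>
  ((((hasDerivAt_exp z).const_add 1).log (pos z)).const_sub _).deriv

lemma dF (z : ℝ) : HasDerivAt F (L z * F z) z := by
  have m : Measurable fun t : ℝ => log (1 + t) / t := by fun_prop
  have p := exp_pos z
  have a : HasDerivAt (fun u => ∫ t in (0 : ℝ)..u, log (1 + t) / t) (log (1 + exp z) / exp z) (exp z) := by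
    refine intervalIntegral.integral_hasDerivAt_right ?_ m.stronglyMeasurable.stronglyMeasurableAtFilter
      (((continuousAt_const.add continuousAt_id).log (pos z)).div continuousAt_id p.ne')
    refine (intervalIntegrable_const (c := 1)).mono_fun' m.aestronglyMeasurable ?_
    rw [Set.uIoc_of_le p.le]
    filter_upwards [MeasureTheory.ae_restrict_mem measurableSet_Ioc] with t ⟨t0, _⟩
    rw [Real.norm_of_nonneg (div_nonneg (log_nonneg (by linarith)) t0.le), div_le_one t0]
    linarith [log_le_sub_one_of_pos (show 0 < 1 + t by linarith)]
  have b := (((((hasDerivAt_id z).const_add (π ^ 2 / 12)).sub (a.comp z (hasDerivAt_exp z))).exp).const_mul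
    ((2 / π) ^ (1 / 4 : ℝ))).mul ((hasDerivAt_id z).const_mul (-(1 - log (13 / 3)))).exp
  refine b.congr_deriv ?_
  simp only [L, F, g, Pi.sub_apply, id, Function.comp]
  field_simp
  ring

lemma cσ (n : ℕ) : ContDiff ℝ n σ := contDiff_exp.div (contDiff_const.add contDiff_exp) pos
lemma cL (n : ℕ) : ContDiff ℝ n L := contDiff_const.sub ((contDiff_const.add contDiff_exp).log pos)
lemma dF' : deriv F = L * F := funext fun z => (dF z).deriv

lemma cF (n : ℕ) : ContDiff ℝ n F := by
  induction n with
  | zero => exact contDiff_zero.2 (continuous_iff_continuousAt.2 fun z => (dF z).continuousAt)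
  | succ n ih =>
    push_cast
    exact contDiff_succ_iff_deriv.2 ⟨fun z => (dF z).differentiableAt, by simp, dF' ▸ (cL n).mul ih⟩

noncomputable def z0 : ℝ := log (10 / 3)

lemma e0 : exp z0 = 10 / 3 := exp_log (by norm_num)

lemma vσ (n : ℕ) : n < 22 → iteratedDeriv n σ z0 = sq n := by
  induction n using Nat.strong_induction_on with
  | _ n ih =>
    intro h
    rcases n with _ | n
    · simp only [iteratedDeriv_zero, σ, e0, show sq 0 = 10 / 13 by decide +kernel]; norm_num
    · rw [iteratedDeriv_succ', dσ, iteratedDeriv_sub (g := σ * σ) (cσ n).contDiffAt ((cσ n).mul (cσ n)).contDiffAt,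
        iteratedDeriv_mul (cσ n).contDiffAt (cσ n).contDiffAt, sq_rec n (by omega), ih n (by omega) (by omega)]
      push_cast
      congr 1
      exact sum_congr rfl fun k hk => by
        have := mem_range.1 hk
        rw [ih k (by omega) (by omega), ih _ (by omega) (by omega)]

lemma vL (n : ℕ) (h : n < 23) : iteratedDeriv n L z0 = lq n := by
  rcases n with _ | n
  · simp only [iteratedDeriv_zero, L, e0, lq]; norm_num
  · rw [iteratedDeriv_succ', dL, iteratedDeriv_neg, vσ n (by omega), lq, Rat.cast_neg]

lemma vF (n : ℕ) : n < 23 → iteratedDeriv n F z0 = F z0 * fq n := by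
  induction n using Nat.strong_induction_on with
  | _ n ih =>
    intro h
    rcases n with _ | n
    · simp [show fq 0 = 1 by decide +kernel]
    · rw [iteratedDeriv_succ', dF', iteratedDeriv_mul (cL n).contDiffAt (cF n).contDiffAt,
        fq_rec n (by omega)]
      push_cast
      rw [mul_sum]
      exact sum_congr rfl fun k hk => by
        have := mem_range.1 hk
        rw [vL k (by omega), ih _ (by omega) (by omega)]
        ring

theorem main : ∃ x y : Fin 12 → ℝ, StrictMono x ∧ StrictMono y ∧ (of fun i j => g (x i - y j)).det < 0 := by
  by_contra! H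
  have a := wr (n := 12) (g := g) (c := 1 - log (13 / 3)) (z := z0) (D := fun n => iteratedDeriv n F)
    (fun k x => by
      rw [iteratedDeriv_succ]
      exact ((cF (k + 1)).differentiable_iteratedDeriv k (by exact_mod_cast k.lt_succ_self) x).hasDerivAt)
    (fun _ => rfl) fun h p => H (fun a => z0 + a * h) (fun b => b * h)
      (fun a b l => by have : (a : ℝ) < b := by exact_mod_cast l
                       simp only; nlinarith)
      (fun a b l => by have : (a : ℝ) < b := by exact_mod_cast l
                       simp only; nlinarith)
  have b : (of fun i j : Fin 12 => (-1) ^ (j : ℕ) * iteratedDeriv (i + j) F z0) =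
      F z0 • (Rat.castHom ℝ).mapMatrix Mq := Matrix.ext fun i j => by
    simp only [of_apply, vF (i + j) (by omega), Matrix.smul_apply, RingHom.mapMatrix_apply, map_apply, Mq,
      smul_eq_mul, eq_ratCast]
    push_cast
    ring
  rw [b, det_smul, ← RingHom.map_det] at a
  have c : 0 < F z0 := by unfold F g; positivity
  have d : (Rat.castHom ℝ) Mq.det < 0 := by simpa using Mq_neg
  nlinarith [pow_pos c (Fintype.card (Fin 12))]

end Pool.Agent.H.MP_41e59c_pr
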